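import Pool.Agent.H60.ACN.Targets

/-!
# MP_1c101a_gt, board acn_modules, row GLO: from local to global decompositions
-/

set_option autoImplicit false

namespace Pool.Agent.H12.ACN

open Pool.Agent.H60.ACN Pool.Agent.H60.W Filter

/-- the ratios of the scales -/
noncomputable def Lq (c : ℝ → ℝ) : ℕ → ℝ
  | 0 => 1
  | q + 1 => 5 * Lq c q / c (Lq c q)

lemma Lq_ge {c : ℝ → ℝ} (hc0 : ∀ L, 1 ≤ L → 0 < c L) (hc1 : ∀ L, 1 ≤ L → c L ≤ 1) (q : ℕ) :
    1 ≤ Lq c q := by
  induction q with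
  | zero => exact le_rfl
  | succ q ih =>
    rw [Lq, le_div_iff₀ (hc0 _ ih)]
    linarith [hc1 _ ih]

lemma Bcol_mono {X : Type} [MetricSpace X] {n : ℕ} {r r' D : ℝ} {A : Set X} (h : Bcol n r D A)
    (hr : r' ≤ r) : Bcol n r' D A := by
  obtain ⟨V, h1, h2⟩ := h
  exact ⟨V, h1, fun i => ⟨(h2 i).1.mono hr, (h2 i).2⟩⟩

theorem pf_GLO (hUNI : T_UNI) : T_GLO := by
  intro X _ U k N R hLsd hsub hLD r hr
  unfold LD at hLD
  choose! c s0 hc0 hc1 hs using hLD
  have hL : ∀ q, 1 ≤ Lq c q := Lq_ge hc0 hc1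
  set p := N ^ 3 with hp
  -- the choice of the scale
  have hev : ∀ᶠ t : ℝ in atTop, (0 < t ∧ 2 * R ≤ t ∧ r ≤ 5 * (2 * t / Lq c p)) ∧
      ∀ q ∈ Finset.range p, s0 (Lq c q) ≤ 2 * t / Lq c q := by
    have hten : ∀ q, Tendsto (fun t : ℝ => 2 * t / Lq c q) atTop atTop := by
      intro q
      have h1 : Tendsto (fun t : ℝ => 2 * t) atTop atTop :=
        tendsto_id.const_mul_atTop (by norm_num)
      exact h1.atTop_div_const (by linarith [hL q])
    refine Filter.Eventually.and ?_ ?_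
    · refine (eventually_gt_atTop 0).and ((eventually_ge_atTop (2 * R)).and ?_)
      filter_upwards [(hten p).eventually_ge_atTop (r / 5)] with t ht
      linarith
    · rw [Filter.eventually_all_finset]
      intro q _
      exact (hten q).eventually_ge_atTop _
  obtain ⟨t, ⟨ht0, htR, htr⟩, hts⟩ := hev.exists
  have hsq0 : ∀ q, 0 < 2 * t / Lq c q := fun q => by
    have := hL q
    positivity
  have hstep : ∀ q, 5 * (2 * t / Lq c (q + 1)) = c (Lq c q) * (2 * t / Lq c q) := by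
    intro q
    have h1 := hc0 _ (hL q)
    have h2 : Lq c q ≠ 0 := by linarith [hL q]
    rw [Lq]
    field_simp
  refine ⟨∑ i ∈ Finset.range p, 5 * (2 * t / Lq c i), fun A hA => ?_⟩
  obtain ⟨C, hC1, hC2⟩ := (hLsd A hA).colours ht0 htR
  have key : ∀ n : ℕ, n ≤ p → Bcol (k + 1) (5 * (2 * t / Lq c n))
      (∑ i ∈ Finset.range n, 5 * (2 * t / Lq c i)) (⋃ (j : Fin p) (_ : j.1 < n), ⋃₀ C j) := by
    intro n
    induction n with
    | zero =>
      intro _
      refine ⟨fun _ => ∅, ?_, fun i => ⟨RD.empty _, fun P hP => absurd hP (Set.notMem_empty P)⟩⟩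
      simp
    | succ n ih =>
      intro hn
      obtain ⟨V, hV1, hV2⟩ := ih (by omega)
      have hnp : n < p := by omega
      -- the pieces of the members of the family `n`
      have hloc : ∀ B ∈ C ⟨n, hnp⟩, Bcol (k + 1) (c (Lq c n) * (2 * t / Lq c n))
          (2 * t / Lq c n) B := by
        intro B hB
        obtain ⟨hBA, hBd⟩ := (hC2 ⟨n, hnp⟩).2 B hB
        refine hs (Lq c n) (hL n) (2 * t / Lq c n) (hts n (Finset.mem_range.2 hnp)) (hsq0 n) B
          (hsub A hA B hBA) fun x hx y hy => ?_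
        have h1 : Lq c n * (2 * t / Lq c n) = 2 * t := by
          have h2 : Lq c n ≠ 0 := by linarith [hL n]
          field_simp
        rw [h1]
        exact hBd x hx y hy
      choose! VB hVB1 hVB2 using hloc
      have hsubB : ∀ B ∈ C ⟨n, hnp⟩, ∀ i, ∀ P ∈ VB B i, P ⊆ B := by
        intro B hB i P hP x hx
        rw [← hVB1 B hB]
        exact Set.mem_iUnion.2 ⟨i, Set.mem_sUnion.2 ⟨P, hP, hx⟩⟩
      have hW1 : ∀ i, RD (c (Lq c n) * (2 * t / Lq c n))
          {P | ∃ B ∈ C ⟨n, hnp⟩, P ∈ VB B i} := by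
        rintro i P ⟨B, hB, hPB⟩ Q ⟨B', hB', hQB⟩ hne x hx y hy
        by_cases hBB : B = B'
        · subst hBB
          exact (hVB2 B hB i).1 P hPB Q hQB hne x hx y hy
        · have h1 := (hC2 ⟨n, hnp⟩).1 B hB B' hB' hBB x (hsubB B hB i P hPB hx) y
            (hsubB B' hB' i Q hQB hy)
          refine le_trans ?_ h1
          have h2 := hc1 _ (hL n)
          have h3 := hsq0 n
          have h4 : 2 * t / Lq c n ≤ 2 * t := div_le_self (by linarith) (hL n)
          nlinarith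
      have hW2 : ∀ i, ∀ P ∈ {P | ∃ B ∈ C ⟨n, hnp⟩, P ∈ VB B i}, ∀ x ∈ P, ∀ y ∈ P,
          dist x y ≤ 2 * t / Lq c n := by
        rintro i P ⟨B, hB, hPB⟩ x hx y hy
        exact (hVB2 B hB i).2 P hPB x hx y hy
      have hsn := hsq0 n
      have hcn0 := hc0 _ (hL n)
      have hcn1 := hc1 _ (hL n)
      have huni : ∀ i : Fin (k + 1), ∃ U' : Set (Set X),
          ⋃₀ U' = ⋃₀ V i ∪ ⋃₀ {P | ∃ B ∈ C ⟨n, hnp⟩, P ∈ VB B i} ∧
          RD (c (Lq c n) * (2 * t / Lq c n)) U' ∧ ∀ P ∈ U', ∀ x ∈ P, ∀ y ∈ P, dist x y ≤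
            (∑ i ∈ Finset.range n, 5 * (2 * t / Lq c i)) + 2 * (2 * t / Lq c n) +
              2 * (c (Lq c n) * (2 * t / Lq c n)) := by
        intro i
        refine hUNI X (V i) _ _ (2 * t / Lq c n) _ (5 * (2 * t / Lq c n)) (by positivity)
          hsn.le ?_ (hV2 i).1 (hW1 i) (hV2 i).2 (hW2 i)
        nlinarith
      choose U' hU1 hU2 hU3 using huni
      refine ⟨U', ?_, fun i => ⟨?_, fun P hP x hx y hy => ?_⟩⟩
      · ext x
        simp only [Set.mem_iUnion]
        constructor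
        · rintro ⟨i, hx⟩
          rw [hU1 i] at hx
          rcases hx with hx | hx
          · have h1 : x ∈ ⋃ i, ⋃₀ V i := Set.mem_iUnion.2 ⟨i, hx⟩
            rw [hV1] at h1
            simp only [Set.mem_iUnion] at h1
            obtain ⟨j, hj, hxj⟩ := h1
            exact ⟨j, by omega, hxj⟩
          · obtain ⟨P, ⟨B, hB, hPB⟩, hxP⟩ := Set.mem_sUnion.1 hx
            exact ⟨⟨n, hnp⟩, by simp, Set.mem_sUnion.2 ⟨B, hB, hsubB B hB i P hPB hxP⟩⟩
        · rintro ⟨j, hj, hx⟩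
          by_cases hjn : j.1 = n
          · have hj' : j = ⟨n, hnp⟩ := Fin.ext hjn
            rw [hj'] at hx
            obtain ⟨B, hB, hxB⟩ := Set.mem_sUnion.1 hx
            have h1 := hxB
            rw [← hVB1 B hB] at h1
            obtain ⟨i, hi⟩ := Set.mem_iUnion.1 h1
            obtain ⟨P, hP, hxP⟩ := Set.mem_sUnion.1 hi
            refine ⟨i, ?_⟩
            rw [hU1 i]
            exact Or.inr (Set.mem_sUnion.2 ⟨P, ⟨B, hB, hP⟩, hxP⟩)
          · have h1 : x ∈ ⋃ i, ⋃₀ V i := by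
              rw [hV1]
              simp only [Set.mem_iUnion]
              exact ⟨j, by omega, hx⟩
            obtain ⟨i, hi⟩ := Set.mem_iUnion.1 h1
            refine ⟨i, ?_⟩
            rw [hU1 i]
            exact Or.inl hi
      · rw [hstep]
        exact hU2 i
      · refine (hU3 i P hP x hx y hy).trans ?_
        rw [Finset.sum_range_succ]
        nlinarith
  have hfin := key p le_rfl
  have hAe : (⋃ (j : Fin p) (_ : j.1 < p), ⋃₀ C j) = A := by
    rw [hC1]
    ext x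
    simp only [Set.mem_iUnion, Fin.is_lt, exists_prop, true_and]
    exact Iff.rfl
  rw [hAe] at hfin
  exact Bcol_mono hfin htr

end Pool.Agent.H12.ACN
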